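import Pool.Agent.Helper53.AE.GoalsB

/-!
# Project AE (MP_8130e1_an), packet ARV (helper44)
-/

set_option autoImplicit false

open scoped ComplexOrder Topology
open Filter TopologicalSpace

namespace Pool.Agent.Helper44.AE.ARV

open Pool.Agent.Helper53.AE

noncomputable section

/-- the index set may be any finite type -/
theorem posK_of_fintype {N : Type} [NonUnitalCStarAlgebra N] {V : Set N} {n : ℕ}
    {K : Fin n → Fin n → N} {ι : Type} [Fintype ι] (W : ι → Fin n → N) (hW : ∀ j s, W j s ∈ V)
    (hK : ∀ s t, K s t = ∑ j, star (W j s) * W j t) : PosK V K := by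
  refine ⟨Fintype.card ι, fun j => W ((Fintype.equivFin ι).symm j), fun j s => hW _ _, ?_⟩
  intro s t
  rw [hK]
  exact (Equiv.sum_comp (Fintype.equivFin ι).symm fun j => star (W j s) * W j t).symm

/-- a multiple of a projection which is a sum of squares -/
theorem smul_proj_nonneg {M : Type} [CStarAlgebra M] {e : M} (he : star e = e) (hee : e * e = e)
    (hne : e ≠ 0) {c : ℂ} {R : ℕ} (B : Fin R → M) (h : c • e = ∑ j, star (B j) * B j) : 0 ≤ c := by
  let _ := CStarAlgebra.spectralOrder M
  have := CStarAlgebra.spectralOrderedRing M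
  have h0 : 0 ≤ c • e := by
    rw [h]
    exact Finset.sum_nonneg fun j _ => star_mul_self_nonneg (B j)
  have h1 : star (c • e) = c • e := (IsSelfAdjoint.of_nonneg h0).star_eq
  rw [star_smul, he] at h1
  have h2 : star c = c := by
    by_contra hcon
    have : (star c - c) • e = 0 := by rw [sub_smul, h1, sub_self]
    rcases smul_eq_zero.1 this with h3 | h3
    · exact hcon (sub_eq_zero.1 h3)
    · exact hne h3
  have h3 : ((c.re : ℝ) : ℂ) = c := Complex.conj_eq_iff_re.1 h2
  rw [← h3, Complex.zero_le_real]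
  by_contra hcon
  push Not at hcon
  have e0 : 0 ≤ e := by
    have := star_mul_self_nonneg e
    rwa [he, hee] at this
  have h4 : 0 ≤ (-c.re) • e := smul_nonneg (by linarith) e0
  have h5 : c • e = (c.re) • e := by
    conv_lhs => rw [← h3]
    exact Complex.coe_smul c.re e
  rw [h5] at h0
  rw [neg_smul] at h4
  have h6 : (c.re) • e = 0 := le_antisymm (neg_nonneg.1 h4) h0
  rcases smul_eq_zero.1 h6 with h7 | h7
  · exact absurd h7 (ne_of_lt hcon)
  · exact hne h7

/-- polarization -/
theorem herm {G : Type} [CStarAlgebra G] (L : G →ₗ[ℂ] ℂ) (hL : ∀ z, 0 ≤ L (star z * z)) (x y : G) :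
    star (L (star x * y)) = L (star y * x) := by
  have im0 : ∀ z, (L (star z * z)).im = 0 := fun z => ((Complex.nonneg_iff.1 (hL z)).2).symm
  have h1 := im0 (x + y)
  have h2 := im0 (x + Complex.I • y)
  have e1 : star (x + y) * (x + y) = star x * x + star y * y + (star x * y + star y * x) := by
    rw [star_add]; noncomm_ring
  have e2 : star (x + Complex.I • y) * (x + Complex.I • y) =
      star x * x + star y * y + (Complex.I • (star x * y) - Complex.I • (star y * x)) := by
    rw [star_add, star_smul, add_mul, mul_add, mul_add, mul_smul_comm, smul_mul_assoc,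
      smul_mul_assoc, mul_smul_comm, smul_smul]
    have : star Complex.I * Complex.I = 1 := by
      rw [Complex.star_def, Complex.conj_I, neg_mul, Complex.I_mul_I, neg_neg]
    rw [this, one_smul, Complex.star_def, Complex.conj_I, neg_smul]
    abel
  rw [e1, map_add, map_add, map_add, Complex.add_im, Complex.add_im, im0, im0, Complex.add_im] at h1
  rw [e2, map_add, map_add, map_sub, map_smul, map_smul, Complex.add_im, Complex.add_im, im0, im0,
    Complex.sub_im, smul_eq_mul, smul_eq_mul, Complex.mul_im, Complex.mul_im] at h2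
  simp only [Complex.I_re, Complex.I_im, zero_mul, one_mul, zero_add, add_zero] at h1 h2
  apply Complex.ext
  · rw [Complex.star_def, Complex.conj_re]
    linarith
  · rw [Complex.star_def, Complex.conj_im]
    linarith

open scoped MatrixOrder in
/-- Gram matrices of a positive functional -/
theorem gram {G : Type} [CStarAlgebra G] (L : G →ₗ[ℂ] ℂ) (hL : ∀ z, 0 ≤ L (star z * z)) {ι : Type}
    [Fintype ι] [DecidableEq ι] (U : ι → G) :
    ∃ B : ι → ι → ℂ, ∀ a b, L (star (U a) * U b) = ∑ j, star (B j a) * B j b := by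
  let A : Matrix ι ι ℂ := Matrix.of fun a b => L (star (U a) * U b)
  have hA : A.PosSemidef := by
    refine Matrix.PosSemidef.of_dotProduct_mulVec_nonneg ?_ ?_
    · ext a b
      rw [Matrix.conjTranspose_apply]
      exact herm L hL (U b) (U a)
    · intro x
      have h1 : star x ⬝ᵥ (A.mulVec x) =
          L (star (∑ b, x b • U b) * (∑ b, x b • U b)) := by
        rw [star_sum, Finset.sum_mul, map_sum]
        simp only [dotProduct, Matrix.mulVec, Pi.star_apply]
        refine Finset.sum_congr rfl fun a _ => ?_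
        rw [Finset.mul_sum, Finset.mul_sum, map_sum]
        refine Finset.sum_congr rfl fun b _ => ?_
        rw [star_smul, smul_mul_assoc, mul_smul_comm, map_smul, map_smul, smul_eq_mul, smul_eq_mul]
        show star (x a) * (L (star (U a) * U b) * x b) = _
        ring
      rw [h1]
      exact hL _
  obtain ⟨B, hB⟩ := CStarAlgebra.nonneg_iff_eq_star_mul_self.mp hA.nonneg
  refine ⟨B, fun a b => ?_⟩
  have := congrFun (congrFun hB a) b
  rw [Matrix.mul_apply] at this
  exact this

/-! ### matrices -/

section mat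

variable {N : Type} [CStarAlgebra N] {n : ℕ}

/-- the matrix with one entry -/
def sg (p q : Fin n) : N →ₗ[ℂ] CStarMatrix (Fin n) (Fin n) N where
  toFun x := CStarMatrix.ofMatrix (Matrix.of fun a b => if a = p ∧ b = q then x else 0)
  map_add' x y := by
    apply CStarMatrix.ext
    intro a b
    rw [CStarMatrix.add_apply]
    simp only [CStarMatrix.ofMatrix_apply, Matrix.of_apply]
    split_ifs <;> simp
  map_smul' c x := by
    apply CStarMatrix.ext
    intro a b
    rw [CStarMatrix.smul_apply]
    simp only [CStarMatrix.ofMatrix_apply, Matrix.of_apply, RingHom.id_apply]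
    split_ifs <;> simp

theorem sg_apply (p q : Fin n) (x : N) (a b : Fin n) :
    sg p q x a b = if a = p ∧ b = q then x else 0 := rfl

theorem sg_mul (z p q : Fin n) (x y : N) : star (sg z p x) * sg z q y = sg p q (star x * y) := by
  apply CStarMatrix.ext
  intro a b
  rw [CStarMatrix.mul_apply, sg_apply]
  have h1 : ∀ l, (star (sg z p x)) a l * sg z q y l b =
      if l = z then (if a = p ∧ b = q then star x * y else 0) else 0 := by
    intro l
    rw [CStarMatrix.star_apply, sg_apply, sg_apply]
    by_cases hl : l = z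
    · by_cases ha : a = p
      · by_cases hb : b = q
        · simp [hl, ha, hb]
        · simp [hl, hb]
      · simp [hl, ha]
    · simp [hl]
  rw [Finset.sum_congr rfl fun l _ => h1 l]
  simp

end mat

section mu

variable {M : Type} [CStarAlgebra M] {n : ℕ} {r : Fin n → Fin n} {f : Fin n → Fin n → M}

theorem mem_spn (p q : Fin n) : f p q ∈ spn f := Submodule.subset_span ⟨(p, q), rfl⟩

theorem corner (h : MUs r f) {c : Fin n → Fin n → M →ₗ[ℂ] ℂ}
    (h2 : ∀ x y, r x ≠ r y → c x y = 0)
    (h3 : ∀ a ∈ spn f, a = ∑ x, ∑ y, c x y a • f x y) {ρ : Fin n} (hρ : r ρ = ρ) {a : M}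
    (ha : a ∈ spn f) (p q : Fin n) :
    f ρ p * a * f q ρ = (if r p = ρ ∧ r q = ρ then c p q a else 0) • f ρ ρ := by
  by_cases hp : r p = ρ
  · by_cases hq : r q = ρ
    · rw [if_pos ⟨hp, hq⟩]
      conv_lhs => rw [h3 a ha]
      rw [Finset.mul_sum, Finset.sum_mul, Finset.sum_eq_single p]
      · rw [Finset.mul_sum, Finset.sum_mul, Finset.sum_eq_single q]
        · rw [mul_smul_comm, smul_mul_assoc, h.mul ρ p q (by rw [hρ, hp]) (by rw [hp, hq]),
            h.mul ρ q ρ (by rw [hρ, hq]) (by rw [hρ, hq])]
        · intro y _ hy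
          rw [mul_smul_comm, smul_mul_assoc, mul_assoc, h.orth p y q ρ hy, mul_zero, smul_zero]
        · intro h5; exact absurd (Finset.mem_univ _) h5
      · intro x _ hx
        rw [Finset.mul_sum, Finset.sum_mul]
        refine Finset.sum_eq_zero fun y _ => ?_
        rw [mul_smul_comm, h.orth ρ p x y (Ne.symm hx), smul_zero, zero_mul]
      · intro h5; exact absurd (Finset.mem_univ _) h5
    · rw [if_neg (fun h5 => hq h5.2), zero_smul, h.zero q ρ (by rw [hρ]; exact hq), mul_zero]
  · rw [if_neg (fun h5 => hp h5.1), zero_smul, h.zero ρ p (by rw [hρ]; exact Ne.symm hp), zero_mul,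
      zero_mul]

/-- positivity of the sum of the coordinates -/
theorem sum_nonneg_of (h : MUs r f) {c : Fin n → Fin n → M →ₗ[ℂ] ℂ}
    (h2 : ∀ x y, r x ≠ r y → c x y = 0)
    (h3 : ∀ a ∈ spn f, a = ∑ x, ∑ y, c x y a • f x y) {K : Fin n → Fin n → M}
    (hK : ∀ p q, K p q ∈ spn f) (hP : PosK Set.univ K) : 0 ≤ ∑ p, ∑ q, c p q (K p q) := by
  obtain ⟨R, W, -, hW⟩ := hP
  have h5 : ∑ p, ∑ q, c p q (K p q) =
      ∑ ρ, ∑ p, ∑ q, if r p = ρ ∧ r q = ρ then c p q (K p q) else 0 := by
    symm
    rw [Finset.sum_comm]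
    refine Finset.sum_congr rfl fun p _ => ?_
    rw [Finset.sum_comm]
    refine Finset.sum_congr rfl fun q _ => ?_
    by_cases hpq : r p = r q
    · rw [Finset.sum_eq_single (r p)]
      · rw [if_pos ⟨rfl, hpq.symm⟩]
      · intro ρ _ hρ
        rw [if_neg (fun h6 => hρ h6.1.symm)]
      · intro h6; exact absurd (Finset.mem_univ _) h6
    · rw [h2 p q hpq]
      simp
  rw [h5]
  refine Finset.sum_nonneg fun ρ _ => ?_
  by_cases hρ : r ρ = ρ
  · have hst : star (f ρ ρ) = f ρ ρ := h.star ρ ρ
    have hee : f ρ ρ * f ρ ρ = f ρ ρ := h.mul ρ ρ ρ rfl rfl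
    refine smul_proj_nonneg hst hee (h.ne ρ) (fun j : Fin R => ∑ p, W j p * f p ρ) ?_
    have e1 : ∀ p q, f ρ p * K p q * f q ρ =
        (if r p = ρ ∧ r q = ρ then c p q (K p q) else 0) • f ρ ρ := fun p q =>
      corner h h2 h3 hρ (hK p q) p q
    rw [Finset.sum_smul]
    have e2 : ∀ p, (∑ q, if r p = ρ ∧ r q = ρ then c p q (K p q) else 0) • f ρ ρ =
        ∑ q, f ρ p * K p q * f q ρ := by
      intro p
      rw [Finset.sum_smul]
      exact Finset.sum_congr rfl fun q _ => (e1 p q).symm
    rw [Finset.sum_congr rfl fun p _ => e2 p]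
    have e3 : ∀ p q, f ρ p * K p q * f q ρ =
        ∑ j, star (W j p * f p ρ) * (W j q * f q ρ) := by
      intro p q
      rw [hW p q, Finset.mul_sum, Finset.sum_mul]
      refine Finset.sum_congr rfl fun j _ => ?_
      rw [star_mul, h.star p ρ]
      noncomm_ring
    have e4 : ∑ p, ∑ q, f ρ p * K p q * f q ρ =
        ∑ p, ∑ q, ∑ j, star (W j p * f p ρ) * (W j q * f q ρ) :=
      Finset.sum_congr rfl fun p _ => Finset.sum_congr rfl fun q _ => e3 p q
    rw [e4]
    have e5 : ∀ p, ∑ q, ∑ j, star (W j p * f p ρ) * (W j q * f q ρ) =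
        ∑ j, star (W j p * f p ρ) * ∑ q, W j q * f q ρ := by
      intro p
      rw [Finset.sum_comm]
      exact Finset.sum_congr rfl fun j _ => (Finset.mul_sum _ _ _).symm
    rw [Finset.sum_congr rfl fun p _ => e5 p, Finset.sum_comm]
    refine Finset.sum_congr rfl fun j _ => ?_
    rw [star_sum, Finset.sum_mul]
  · have : ∀ p q, (if r p = ρ ∧ r q = ρ then c p q (K p q) else 0) = 0 := by
      intro p q
      rw [if_neg]
      rintro ⟨h6, -⟩
      apply hρ
      rw [← h6, h.root]
    simp [this]

end mu

/-- **ARV** -/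
theorem t (hC : S_COE) (hK : S_KRN) : S_ARV := by
  intro N M _ _ V μ n r f hf h1V hstV hμ hpos
  classical
  rcases Nat.eq_zero_or_pos n with hn | hn
  · subst hn
    have hbot : spn f = ⊥ := by
      unfold spn
      rw [Set.range_eq_empty, Submodule.span_empty]
    refine ⟨0, fun x => ?_, fun k Y => ?_⟩
    · have := hμ x
      rw [hbot, Submodule.mem_bot] at this
      rw [this, LinearMap.zero_apply]
    · exact ⟨0, fun j => j.elim0, fun j => j.elim0, fun s t => by simp⟩
  obtain ⟨c, c1, c2, c3⟩ := hC M n r f hf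
  let _ := CStarAlgebra.spectralOrder N
  have := CStarAlgebra.spectralOrderedRing N
  let VG : Submodule ℂ (CStarMatrix (Fin n) (Fin n) N) :=
    { carrier := {X | ∀ p q, X p q ∈ V}
      add_mem' := by
        intro X Y hX hY p q
        rw [CStarMatrix.add_apply]
        exact V.add_mem (hX p q) (hY p q)
      zero_mem' := by
        intro p q
        exact V.zero_mem
      smul_mem' := by
        intro c X hX p q
        rw [CStarMatrix.smul_apply]
        exact V.smul_mem c (hX p q) }
  have hVG : ∀ X : CStarMatrix (Fin n) (Fin n) N, X ∈ VG ↔ ∀ p q, X p q ∈ V := fun X => Iff.rfl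
  let ent : Fin n → Fin n → VG →ₗ[ℂ] V := fun p q =>
    { toFun := fun X => ⟨X.1 p q, X.2 p q⟩
      map_add' := fun X Y => rfl
      map_smul' := fun c X => rfl }
  let Lam : VG →ₗ[ℂ] ℂ := ∑ p, ∑ q, (c p q).comp (μ.comp (ent p q))
  have hLam : ∀ X : VG, Lam X = ∑ p, ∑ q, c p q (μ ⟨X.1 p q, X.2 p q⟩) := by
    intro X
    simp only [Lam, LinearMap.sum_apply, LinearMap.comp_apply]
    rfl
  obtain ⟨L, hL1, hL2⟩ := hK (CStarMatrix (Fin n) (Fin n) N) VG Lam
    (by
      intro p q
      rw [CStarMatrix.one_apply]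
      split_ifs
      · exact h1V
      · exact V.zero_mem)
    (by
      intro X hX p q
      rw [CStarMatrix.star_apply]
      exact hstV _ (hX q p))
    (by
      rintro X ⟨Z, hZ⟩
      rw [hLam]
      refine sum_nonneg_of hf c2 c3 (fun p q => hμ _) ?_
      refine hpos (fun p q => ⟨X.1 p q, X.2 p q⟩) ⟨n, fun l p => Z l p, fun _ _ => trivial, ?_⟩
      intro p q
      show X.1 p q = _
      rw [hZ, CStarMatrix.mul_apply]
      rfl)
  let κ : N →ₗ[ℂ] M := ∑ p, ∑ q, (L.comp (sg p q)).smulRight (f p q)
  have hκ : ∀ x, κ x = ∑ p, ∑ q, L (sg p q x) • f p q := by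
    intro x
    simp only [κ, LinearMap.sum_apply, LinearMap.smulRight_apply, LinearMap.comp_apply]
  refine ⟨κ, fun x => ?_, fun k Y => ?_⟩
  · rw [hκ]
    have e1 : ∀ p q, L (sg p q (x : N)) = c p q (μ x) := by
      intro p q
      have hm : sg p q (x : N) ∈ VG := by
        intro a b
        rw [sg_apply]
        split_ifs
        · exact x.2
        · exact V.zero_mem
      have e2 := hL1 ⟨_, hm⟩
      rw [hLam] at e2
      rw [e2, Finset.sum_eq_single p]
      · rw [Finset.sum_eq_single q]
        · congr 2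
          apply Subtype.ext
          show sg p q (x : N) p q = x
          rw [sg_apply, if_pos ⟨rfl, rfl⟩]
        · intro b _ hb
          have : (⟨(sg p q (x : N)) p b, hm p b⟩ : V) = 0 := by
            apply Subtype.ext
            show sg p q (x : N) p b = 0
            rw [sg_apply, if_neg (fun h => hb h.2)]
          rw [this, map_zero, map_zero]
        · intro h5; exact absurd (Finset.mem_univ _) h5
      · intro a _ ha
        refine Finset.sum_eq_zero fun b _ => ?_
        have : (⟨(sg p q (x : N)) a b, hm a b⟩ : V) = 0 := by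
          apply Subtype.ext
          show sg p q (x : N) a b = 0
          rw [sg_apply, if_neg (fun h => ha h.1)]
        rw [this, map_zero, map_zero]
      · intro h5; exact absurd (Finset.mem_univ _) h5
    rw [Finset.sum_congr rfl fun p _ => Finset.sum_congr rfl fun q _ => by rw [e1 p q]]
    exact (c3 _ (hμ x)).symm
  · obtain ⟨B, hB⟩ := gram L hL2 (fun a : Fin k × Fin n => sg (⟨0, hn⟩ : Fin n) a.2 (Y a.1))
    have hB' : ∀ s t p q, L (sg p q (star (Y s) * Y t)) =
        ∑ j, star (B j (s, p)) * B j (t, q) := by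
      intro s t p q
      rw [← hB (s, p) (t, q), sg_mul]
    -- decomposition of the matrix units
    have hroot : ∀ p q, f p q = ∑ ρ, if r ρ = ρ then f p ρ * f ρ q else 0 := by
      intro p q
      by_cases hpq : r p = r q
      · rw [Finset.sum_eq_single (r p)]
        · rw [if_pos (hf.root p), hf.mul p (r p) q (hf.root p).symm (by rw [hf.root, hpq])]
        · intro ρ _ hρ
          split_ifs with h5
          · rw [hf.zero p ρ (by rw [h5]; exact Ne.symm hρ), zero_mul]
          · rfl
        · intro h5; exact absurd (Finset.mem_univ _) h5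
      · rw [hf.zero p q hpq]
        symm
        refine Finset.sum_eq_zero fun ρ _ => ?_
        split_ifs with h5
        · by_cases h6 : r p = r ρ
          · rw [hf.zero ρ q (by rw [← h6]; exact hpq), mul_zero]
          · rw [hf.zero p ρ h6, zero_mul]
        · rfl
    refine posK_of_fintype (ι := (Fin k × Fin n) × Fin n)
      (fun j t => if r j.2 = j.2 then ∑ q, B j.1 (t, q) • f j.2 q else 0) ?_ ?_
    · intro j s
      show (if r j.2 = j.2 then ∑ q, B j.1 (s, q) • f j.2 q else 0) ∈ spn f
      split_ifs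
      · exact Submodule.sum_mem _ fun q _ => Submodule.smul_mem _ _ (mem_spn _ _)
      · exact Submodule.zero_mem _
    · intro s t
      rw [hκ, Fintype.sum_prod_type]
      have e1 : ∀ p q, L (sg p q (star (Y s) * Y t)) • f p q =
          ∑ j, ∑ ρ, (star (B j (s, p)) * B j (t, q)) •
            (if r ρ = ρ then f p ρ * f ρ q else 0) := by
        intro p q
        rw [hB', Finset.sum_smul]
        refine Finset.sum_congr rfl fun j _ => ?_
        conv_lhs => rw [hroot p q]
        rw [Finset.smul_sum]
      have e2 : ∀ (j : Fin k × Fin n) (ρ : Fin n),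
          star (if r ρ = ρ then ∑ q, B j (s, q) • f ρ q else 0) *
            (if r ρ = ρ then ∑ q, B j (t, q) • f ρ q else 0) =
          ∑ p, ∑ q, (star (B j (s, p)) * B j (t, q)) •
            (if r ρ = ρ then f p ρ * f ρ q else 0) := by
        intro j ρ
        by_cases h5 : r ρ = ρ
        · simp only [if_pos h5]
          rw [star_sum, Finset.sum_mul]
          refine Finset.sum_congr rfl fun p _ => ?_
          rw [Finset.mul_sum]
          refine Finset.sum_congr rfl fun q _ => ?_
          rw [star_smul, hf.star, smul_mul_assoc, mul_smul_comm, smul_smul]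
        · simp [if_neg h5]
      show ∑ p, ∑ q, L (sg p q (star (Y s) * Y t)) • f p q = _
      rw [Finset.sum_congr rfl fun p _ => Finset.sum_congr rfl fun q _ => e1 p q]
      rw [Finset.sum_congr rfl fun j _ => Finset.sum_congr rfl fun ρ _ => e2 j ρ]
      -- reorder the sums
      have e3 : ∀ F : Fin n → Fin n → (Fin k × Fin n) → Fin n → M,
          ∑ p, ∑ q, ∑ j, ∑ ρ, F p q j ρ = ∑ j, ∑ ρ, ∑ p, ∑ q, F p q j ρ := by
        intro F
        calc ∑ p, ∑ q, ∑ j, ∑ ρ, F p q j ρ
            = ∑ p, ∑ j, ∑ q, ∑ ρ, F p q j ρ :=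
              Finset.sum_congr rfl fun p _ => Finset.sum_comm
          _ = ∑ j, ∑ p, ∑ q, ∑ ρ, F p q j ρ := Finset.sum_comm
          _ = ∑ j, ∑ p, ∑ ρ, ∑ q, F p q j ρ :=
              Finset.sum_congr rfl fun j _ => Finset.sum_congr rfl fun p _ => Finset.sum_comm
          _ = ∑ j, ∑ ρ, ∑ p, ∑ q, F p q j ρ :=
              Finset.sum_congr rfl fun j _ => Finset.sum_comm
      exact e3 _

end

end Pool.Agent.Helper44.AE.ARV
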